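import Pool.Agent.H95.FI.Defs

open MvPolynomial

namespace H1.FI
open H95.FG H95.FI

theorem t_ADB : S_ADB := by
  intro n s u v hn
  classical
  let φ : (Fin n → ℂ) →ₗ[ℂ] (Fin (s + 1) → ℂ) :=
    { toFun := fun x j => dt x (v j)
      map_add' := by
        intro x y; ext j; simp [dt, add_mul, Finset.sum_add_distrib]
      map_smul' := by
        intro a x; ext j; simp [dt, Finset.mul_sum, mul_assoc] }
  set W : Submodule ℂ (Fin n → ℂ) := LinearMap.ker φ with hW
  set U : Submodule ℂ (Fin n → ℂ) := Submodule.span ℂ (Set.range u) with hU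
  have hWd : n ≤ Module.finrank ℂ W + (s + 1) := by
    have h1 := LinearMap.finrank_range_add_finrank_ker φ
    have h2 : Module.finrank ℂ (LinearMap.range φ) ≤ s + 1 := by
      have := Submodule.finrank_le (LinearMap.range φ)
      simpa using this
    rw [Module.finrank_fin_fun, ← hW] at h1
    omega
  have hUd : Module.finrank ℂ U ≤ s + 1 := by
    have := finrank_range_le_card (R := ℂ) u
    simpa [Set.finrank] using this
  obtain ⟨C, hC⟩ := Submodule.exists_isCompl U
  have hCd : n ≤ Module.finrank ℂ C + (s + 1) := by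
    have := Submodule.finrank_add_eq_of_isCompl hC
    rw [Module.finrank_fin_fun] at this
    omega
  set L : Submodule ℂ (Fin n → ℂ) := W ⊓ C with hL
  have hLd : 2 * s ≤ Module.finrank ℂ L := by
    have h1 := Submodule.finrank_sup_add_finrank_inf_eq W C
    have h2 := Submodule.finrank_le (W ⊔ C)
    rw [Module.finrank_fin_fun] at h2
    rw [← hL] at h1
    omega
  have hdis : Disjoint U L := hC.disjoint.mono_right inf_le_right
  obtain ⟨M, hUM, hM⟩ := hdis.exists_isCompl
  have hLM : IsCompl L M := hM.symm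
  set r := Module.finrank ℂ L with hr
  have hMd : Module.finrank ℂ M = n - r := by
    have := Submodule.finrank_add_eq_of_isCompl hLM
    rw [Module.finrank_fin_fun] at this
    omega
  have hrn : r ≤ n := by
    have := Submodule.finrank_le L
    rwa [Module.finrank_fin_fun] at this
  let bL : Module.Basis (Fin r) ℂ L := Module.finBasisOfFinrankEq ℂ L hr.symm
  let bM : Module.Basis (Fin (n - r)) ℂ M := Module.finBasisOfFinrankEq ℂ M hMd
  let e : Fin r ⊕ Fin (n - r) ≃ Fin n := finSumFinEquiv.trans (finCongr (by omega))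
  let E := Submodule.prodEquivOfIsCompl L M hLM
  let B : Module.Basis (Fin n) ℂ (Fin n → ℂ) := ((bL.prod bM).map E).reindex e
  have hB1 : ∀ k : Fin n, k.val < r → B k ∈ L := by
    intro k hk
    obtain ⟨y, rfl⟩ := e.surjective k
    rcases y with i | j
    · simp [B, E]
    · exfalso
      simp [e] at hk
  have hB2 : ∀ x ∈ M, ∀ k : Fin n, k.val < r → B.repr x k = 0 := by
    intro x hx k hk
    obtain ⟨y, rfl⟩ := e.surjective k
    rcases y with i | j
    · have h0 : (E.symm x).1 = 0 := by
        rw [Submodule.prodEquivOfIsCompl_symm_apply_fst_eq_zero]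
        exact hx
      simp [B, h0]
    · exfalso
      simp [e] at hk
  -- the matrix
  let Z0 : Matrix (Fin n) (Fin n) ℂ := Matrix.of fun i k => B k i
  have hZ0 : Z0.det ≠ 0 := by
    have h1 := (Module.Basis.isUnit_det (Pi.basisFun ℂ (Fin n)) B).ne_zero
    rw [Module.Basis.det_apply] at h1
    have : (Pi.basisFun ℂ (Fin n)).toMatrix B = Z0 := by
      ext i k
      simp [Z0, Module.Basis.toMatrix_apply]
    rwa [this] at h1
  have hn0 : 0 < n := by omega
  let k0 : Fin n := ⟨0, hn0⟩
  let d : Fin n → ℂ := fun k => if k = k0 then (Z0.det)⁻¹ else 1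
  have hd0 : ∀ k, d k ≠ 0 := by
    intro k
    by_cases hk : k = k0
    · simp [d, hk, hZ0]
    · simp [d, hk]
  have hprod : ∏ k, d k = (Z0.det)⁻¹ := by
    simp [d]
  let Z : Matrix (Fin n) (Fin n) ℂ := Z0 * Matrix.diagonal d
  have hZ : Z.det = 1 := by
    simp only [Z, Matrix.det_mul, Matrix.det_diagonal, hprod]
    exact mul_inv_cancel₀ hZ0
  refine ⟨Z, fun i k => (d k)⁻¹ * B.repr (u i) k, fun j => Z.transpose.mulVec (v j), hZ, ?_, ?_,
    ?_, ?_⟩
  · intro i
    ext a
    have h1 := congrFun (B.sum_repr (u i)) a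
    simp only [Matrix.mulVec, dotProduct, Z, Matrix.mul_diagonal]
    rw [← h1, Finset.sum_apply]
    refine Finset.sum_congr rfl fun k _ => ?_
    simp only [Z0, Matrix.of_apply, Pi.smul_apply, smul_eq_mul]
    have := hd0 k
    field_simp
  · intro j
    rw [Matrix.mulVec_mulVec, ← Matrix.transpose_mul, Matrix.mul_adjugate, hZ, one_smul,
      Matrix.transpose_one, Matrix.one_mulVec]
  · intro i k hk
    have : B.repr (u i) k = 0 := by
      refine hB2 (u i) (hUM ?_) k (by omega)
      exact Submodule.subset_span ⟨i, rfl⟩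
    simp [this]
  · intro j k hk
    have h1 : B k ∈ L := hB1 k (by omega)
    have h2 : φ (B k) = 0 := by
      have : B k ∈ W := (inf_le_left : L ≤ W) h1
      exact this
    have h3 : ∑ a, B k a * v j a = 0 := congrFun h2 j
    have h4 : (Z.transpose.mulVec (v j)) k = d k * ∑ a, B k a * v j a := by
      simp only [Matrix.mulVec, dotProduct, Matrix.transpose_apply, Z, Matrix.mul_diagonal, Z0,
        Matrix.of_apply, Finset.mul_sum]
      refine Finset.sum_congr rfl fun a _ => ?_
      ring
    show (Z.transpose.mulVec (v j)) k = 0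
    rw [h4, h3, mul_zero]

end H1.FI
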