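import Pool.Agent.H95.FI.Defs

open MvPolynomial

namespace H1.FI
open H95.FG H95.FI

lemma coeff_ri {n : ℕ} (a b : Fin n →₀ ℕ) (f g : Pn n) :
    coeff (a.mapDomain Sum.inl + b.mapDomain Sum.inr)
      (rename Sum.inl f * rename Sum.inr g : Qn n) = coeff a f * coeff b g := by
  induction f using MvPolynomial.induction_on' with
  | add p q hp hq => rw [map_add, add_mul, coeff_add, hp, hq, coeff_add, add_mul]
  | monomial a' r =>
    induction g using MvPolynomial.induction_on' with
    | add p q hp hq => rw [map_add, mul_add, coeff_add, hp, hq, coeff_add, mul_add]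
    | monomial b' t =>
      rw [rename_monomial, rename_monomial, monomial_mul, coeff_monomial, coeff_monomial,
        coeff_monomial]
      by_cases ha : a' = a
      · by_cases hb : b' = b
        · subst ha; subst hb; simp
        · rw [if_neg, if_neg hb, mul_zero]
          intro h
          apply hb
          ext k
          have := DFunLike.congr_fun h (Sum.inr k)
          rw [Finsupp.add_apply, Finsupp.add_apply,
            Finsupp.mapDomain_apply Sum.inr_injective, Finsupp.mapDomain_apply Sum.inr_injective,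
            Finsupp.mapDomain_notin_range _ _ (by simp),
            Finsupp.mapDomain_notin_range _ _ (by simp)] at this
          simpa using this
      · rw [if_neg, if_neg ha, zero_mul]
        intro h
        apply ha
        ext k
        have := DFunLike.congr_fun h (Sum.inl k)
        rw [Finsupp.add_apply, Finsupp.add_apply,
          Finsupp.mapDomain_apply Sum.inl_injective, Finsupp.mapDomain_apply Sum.inl_injective,
          Finsupp.mapDomain_notin_range b' _ (by simp),
          Finsupp.mapDomain_notin_range b _ (by simp)] at this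
        simpa using this

lemma xi_eq {n : ℕ} (ξ : Pn n →ₗ[ℂ] ℂ) (f : Pn n) (S : Finset (Fin n →₀ ℕ))
    (hS : f.support ⊆ S) : ξ f = ∑ a ∈ S, coeff a f * ξ (monomial a 1) := by
  conv_lhs => rw [f.as_sum]
  rw [map_sum]
  have h1 : ∀ a, ξ (monomial a (coeff a f)) = coeff a f * ξ (monomial a 1) := by
    intro a
    have : (monomial a (coeff a f) : Pn n) = coeff a f • monomial a 1 := by
      rw [smul_monomial, smul_eq_mul, mul_one]
    rw [this, map_smul, smul_eq_mul]
  rw [Finset.sum_congr rfl (fun a _ => h1 a)]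
  apply Finset.sum_subset hS
  intro a _ ha
  rw [notMem_support_iff.mp ha, zero_mul]

lemma sq_eq {n : ℕ} (ξ : Pn n →ₗ[ℂ] ℂ) (f : Pn n) (S : Finset (Fin n →₀ ℕ))
    (hS : f.support ⊆ S) : ((‖ξ f‖ ^ 2 : ℝ) : ℂ) = ∑ a ∈ S, ∑ b ∈ S,
      (ξ (monomial a 1) * (starRingEnd ℂ) (ξ (monomial b 1))) *
        (coeff a f * (starRingEnd ℂ) (coeff b f)) := by
  have h : ((‖ξ f‖ ^ 2 : ℝ) : ℂ) = ξ f * (starRingEnd ℂ) (ξ f) := by
    rw [Complex.mul_conj, Complex.normSq_eq_norm_sq]
  rw [h, xi_eq ξ f S hS, map_sum, Finset.sum_mul_sum]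
  refine Finset.sum_congr rfl fun a _ => Finset.sum_congr rfl fun b _ => ?_
  rw [map_mul]
  ring

theorem t_FUN : S_FUN := by
  intro n ι κ _ _ u δ p h ξ
  classical
  set S : Finset (Fin n →₀ ℕ) := (Finset.univ.biUnion fun i => (u i).support) ∪
    (Finset.univ.biUnion fun l => (p l).support) with hSdef
  have hu : ∀ i, (u i).support ⊆ S := fun i =>
    (Finset.subset_biUnion_of_mem (fun i => (u i).support) (Finset.mem_univ i)).trans
      Finset.subset_union_left
  have hp : ∀ l, (p l).support ⊆ S := fun l =>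
    (Finset.subset_biUnion_of_mem (fun l => (p l).support) (Finset.mem_univ l)).trans
      Finset.subset_union_right
  have hc : ∀ a b : Fin n →₀ ℕ,
      ∑ i, ((δ i : ℝ) : ℂ) * (coeff a (u i) * (starRingEnd ℂ) (coeff b (u i))) =
        ∑ l, coeff a (p l) * (starRingEnd ℂ) (coeff b (p l)) := by
    intro a b
    have := congrArg (coeff (a.mapDomain Sum.inl + b.mapDomain Sum.inr)) h
    rw [coeff_sum, coeff_sum] at this
    simp only [coeff_C_mul, coeff_ri] at this
    simpa only [cj, coeff_map] using this
  apply Complex.ofReal_injective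
  rw [Complex.ofReal_sum, Complex.ofReal_sum]
  have e1 : ∀ i, ((δ i * ‖ξ (u i)‖ ^ 2 : ℝ) : ℂ) = ∑ a ∈ S, ∑ b ∈ S,
      (ξ (monomial a 1) * (starRingEnd ℂ) (ξ (monomial b 1))) *
        (((δ i : ℝ) : ℂ) * (coeff a (u i) * (starRingEnd ℂ) (coeff b (u i)))) := by
    intro i
    rw [Complex.ofReal_mul, sq_eq ξ (u i) S (hu i), Finset.mul_sum]
    refine Finset.sum_congr rfl fun a _ => ?_
    rw [Finset.mul_sum]
    refine Finset.sum_congr rfl fun b _ => ?_
    ring
  rw [Finset.sum_congr rfl (fun i _ => e1 i),
    Finset.sum_congr rfl (fun l _ => sq_eq ξ (p l) S (hp l)),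
    Finset.sum_comm, Finset.sum_comm (s := (Finset.univ : Finset κ))]
  refine Finset.sum_congr rfl fun a _ => ?_
  rw [Finset.sum_comm, Finset.sum_comm (s := (Finset.univ : Finset κ))]
  refine Finset.sum_congr rfl fun b _ => ?_
  rw [← Finset.mul_sum, ← Finset.mul_sum, hc a b]

end H1.FI
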