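import Pool.Agent.H95.FI.Defs
import Pool.Agent.H91.FG.Nulls
import Pool.Agent.H96.FG.R

open MvPolynomial

namespace H95.FI
open H95.FG

theorem kk_conj {n m : ℕ} (p : Fin m → Pn n) (z Y : Fin n → ℂ) :
    KK p (cv Y) (cv z) = (starRingEnd ℂ) (KK p z Y) := by
  unfold KK
  rw [map_sum]
  refine Finset.sum_congr rfl fun j _ => ?_
  rw [map_mul]
  have h1 : eval (cv z) (cj (p j)) = (starRingEnd ℂ) (eval z (p j)) := H96.FG.eval_cv_cj _ _
  have h2 : eval (cv Y) (p j) = (starRingEnd ℂ) (eval Y (cj (p j))) := by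
    have h3 : eval (cv (cv Y)) (cj (p j)) = (starRingEnd ℂ) (eval (cv Y) (p j)) :=
      H96.FG.eval_cv_cj _ _
    have h4 : cv (cv Y) = Y := by funext k; simp [cv]
    rw [h4] at h3
    rw [h3, Complex.conj_conj]
  rw [h1, h2]
  ring

theorem t_HER : S_HER := by
  intro n m p A hs hn z Y
  have hmul : ∀ z Y : Fin n → ℂ, ∑ k, z k * Y k ≠ 0 →
      AA A (cv Y) (cv z) = (starRingEnd ℂ) (AA A z Y) := by
    intro z Y h
    have h1 := H91.FG.KK_eq hs z Y
    have h2 := H91.FG.KK_eq hs (cv Y) (cv z)
    rw [kk_conj, h1, map_mul] at h2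
    have h3 : ∑ k, cv Y k * cv z k = (starRingEnd ℂ) (∑ k, z k * Y k) := by
      rw [map_sum]
      refine Finset.sum_congr rfl fun k _ => ?_
      simp only [cv, map_mul]
      ring
    rw [h3] at h2
    have h4 : (starRingEnd ℂ) (∑ k, z k * Y k) ≠ 0 := (map_ne_zero _).2 h
    exact (mul_left_cancel₀ h4 h2).symm
  let e : Fin n → ℂ := Pi.single ⟨0, hn⟩ 1
  have hpoly : ∀ t : ℂ, ∑ k, (z + t • e) k * (Y + t • e) k =
      (Polynomial.C (∑ k, z k * Y k) + Polynomial.C (z ⟨0, hn⟩ + Y ⟨0, hn⟩) * Polynomial.X +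
        Polynomial.X ^ 2 : Polynomial ℂ).eval t := by
    intro t
    simp only [Pi.add_apply, Pi.smul_apply, smul_eq_mul, Polynomial.eval_add, Polynomial.eval_mul,
      Polynomial.eval_C, Polynomial.eval_X, Polynomial.eval_pow]
    have h1 : ∀ k, (z k + t * e k) * (Y k + t * e k) =
        z k * Y k + (if k = ⟨0, hn⟩ then (z k + Y k) * t + t ^ 2 else 0) := by
      intro k
      simp only [e, Pi.single_apply]
      split_ifs <;> ring
    simp only [h1, Finset.sum_add_distrib, Finset.sum_ite_eq', Finset.mem_univ, if_true]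
    ring
  set P : Polynomial ℂ := Polynomial.C (∑ k, z k * Y k) +
    Polynomial.C (z ⟨0, hn⟩ + Y ⟨0, hn⟩) * Polynomial.X + Polynomial.X ^ 2 with hP
  have hP0 : P ≠ 0 := by
    intro h
    have h1 := congrArg (fun q => Polynomial.coeff q 2) h
    simp [hP, Polynomial.coeff_C, Polynomial.coeff_X] at h1
  have hfin : {t : ℂ | P.eval t = 0}.Finite := by
    refine (P.roots.toFinset.finite_toSet).subset ?_
    intro t ht
    simp only [Finset.mem_coe, Multiset.mem_toFinset]
    exact (Polynomial.mem_roots hP0).2 ht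
  have hdense : Dense ({t : ℂ | P.eval t = 0}ᶜ) := hfin.countable.dense_compl ℂ
  have hc1 : Continuous fun t : ℂ => AA A (cv (Y + t • e)) (cv (z + t • e)) := by
    unfold AA
    refine (continuous_eval A).comp (continuous_pi fun k => ?_)
    rcases k with k | k
    · simp only [Sum.elim_inl, cv, Pi.add_apply, Pi.smul_apply, smul_eq_mul]
      exact Complex.continuous_conj.comp (by fun_prop)
    · simp only [Sum.elim_inr, cv, Pi.add_apply, Pi.smul_apply, smul_eq_mul]
      exact Complex.continuous_conj.comp (by fun_prop)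
  have hc2 : Continuous fun t : ℂ => (starRingEnd ℂ) (AA A (z + t • e) (Y + t • e)) := by
    refine Complex.continuous_conj.comp ?_
    unfold AA
    refine (continuous_eval A).comp (continuous_pi fun k => ?_)
    rcases k with k | k
    · simp only [Sum.elim_inl, Pi.add_apply, Pi.smul_apply, smul_eq_mul]
      fun_prop
    · simp only [Sum.elim_inr, Pi.add_apply, Pi.smul_apply, smul_eq_mul]
      fun_prop
  have heq := hc1.ext_on hdense hc2 (fun t ht => by
    apply hmul
    rw [hpoly]
    exact ht)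
  have := congrFun heq 0
  simpa using this

end H95.FI
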