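import Pool.Agent.H95.FI.Top
import Pool.Agent.H95.FI.PSD
import Pool.Agent.H95.FI.FUN
import Pool.Agent.H95.FI.HER
import Pool.Agent.H95.FI.ADB
import Pool.Agent.H3.FI.Sb
import Pool.Agent.H95.FG.All
import Pool.Agent.H16.FI.DUAL
import Pool.Agent.H16.FI.MACC
import Pool.Agent.H17.FI.HALF
import Pool.Agent.H31.FI.ADA
import Pool.Agent.H32.FI.MACB
import Pool.Agent.H39.FI.RK2
import Pool.Agent.H39.FI.RKA
import Pool.Agent.H53.FI.RKR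
import Pool.Agent.H55.FI.DUA
import Pool.Agent.H56.FI.MACA
import Pool.Agent.H59.FI.PTS
import Pool.Agent.H59.FI.SUBD
import Pool.Agent.H61.FI.HD
import Pool.Agent.H88.FI.GEN
import Pool.Agent.H89.FI.RKB
import Pool.Agent.H94.FI.EF
import Pool.Agent.H94.FI.SCH

namespace H95.FI
open H95.FG

theorem all_HALF : S_HALF := H17.FI.t_HALF H96.FG.t_BLK H81.FG.t_UNI
theorem all_MAC : S_MAC := H56.FI.t_MAC H56.FI.t_MACA H32.FI.t_MACB H16.FI.t_MACC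
theorem all_RK2 : S_RK2 := H39.FI.t_RK2 H39.FI.t_RKA H16.FI.t_DUAL H89.FI.t_RKB
theorem all_EF : S_EF := H94.FI.t_EF H94.FI.t_SCH H16.FI.t_DUAL all_RK2 H91.FG.t_NUL
theorem all_HD : S_HD := H61.FI.t_HD H94.FI.t_SCH

theorem all_SB : S_SB := Pool.Agent.H3.FI.t_SB all_HALF H59.FI.t_PTS H59.FI.t_SUBD H55.FI.t_DUA
  all_MAC H54.FG.t_PAIR

theorem all_TOP : S_TOP :=
  t_TOP all_SB all_EF H53.FI.t_RKR (H88.FI.t_GEN H31.FI.t_ADA H1.FI.t_ADB)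
    (t_PSD all_HD H1.FI.t_FUN t_HER all_MAC)

end H95.FI
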