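import Pool.Agent.H95.FG.Defs

/-!
# Interface of crew FI (MP_ce7760_an): the SOS conjecture for all ranks `m < (√n - 3) n`

Result: `(k + 4) ^ 2 ≤ n`, `m ∈ S_1(n)`, `m < (k + 1) n` imply that `m` lies in a block
`[s n - s (s - 1) / 2, s n]` with `s ≤ k + 1`.

Parts may use each other as hypotheses (`S_XXX`), and all FG results
(`import Pool.Agent.H95.FG.All`: `H96.FG.t_BLK`, `H81.FG.t_UNI`, `H54.FG.t_PAIR`, `H91.FG.t_NUL`).
-/

open MvPolynomial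

namespace H95.FI
open H95.FG

abbrev Pn (n : ℕ) := MvPolynomial (Fin n) ℂ
abbrev Qn (n : ℕ) := MvPolynomial (Fin n ⊕ Fin n) ℂ

/-- dot product -/
def dt {n : ℕ} (z Y : Fin n → ℂ) : ℂ := ∑ k, z k * Y k

/-- matrix of the values of `A` -/
noncomputable def VM {n : ℕ} {ι κ : Type} (A : Qn n) (z : ι → Fin n → ℂ) (Y : κ → Fin n → ℂ) :
    Matrix ι κ ℂ := Matrix.of fun i j => AA A (z i) (Y j)

def Orth {n : ℕ} {ι κ : Type} (z : ι → Fin n → ℂ) (Y : κ → Fin n → ℂ) : Prop :=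
  ∀ i j, dt (z i) (Y j) = 0

def Big {n : ℕ} (A : Qn n) (s : ℕ) : Prop :=
  ∃ z Y : Fin s → Fin n → ℂ, Orth z Y ∧ (VM A z Y).det ≠ 0

noncomputable def RR {n s : ℕ} (A : Qn n) (z0 Y0 : Fin s → Fin n → ℂ) (z Y : Fin n → ℂ) : ℂ :=
  ∑ i, ∑ j, AA A z (Y0 j) * (VM A z0 Y0)⁻¹ j i * AA A (z0 i) Y

/-- the quadric -/
noncomputable def SS (n : ℕ) : Qn n := ∑ k : Fin n, X (Sum.inl k) * X (Sum.inr k)

/-- HALF: from BLK and UNI with two groups (as R2): group 0 = the points `w i` in the span of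
orthonormal `e_0..e_{a-1}`, group 1 = the same coefficient vectors shifted by `a` (same unitary
matrix composed with a permutation matrix). -/
def S_HALF : Prop := ∀ (n m : ℕ) (p : Fin m → Pn n) (A : Qn n), Sys n m p A →
  ∀ (a r : ℕ) (v : Fin a → Fin n → ℂ) (w : Fin r → Fin n → ℂ), 2 * a ≤ n →
  (∀ i, w i ∈ Submodule.span ℂ (Set.range v)) → LinearIndependent ℂ (fun i => ev p (w i)) →
  2 * r ≤ m

/-- PTS: the rank of polynomials is attained at points. -/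
def S_PTS : Prop := ∀ (a m r : ℕ) (q : Fin m → Pn a),
  r ≤ Module.finrank ℂ (Submodule.span ℂ (Set.range q)) →
  ∃ x : Fin r → Fin a → ℂ, LinearIndependent ℂ (fun k => ev q (x k))

/-- SUBD: linear algebra (dimension count). -/
def S_SUBD : Prop := ∀ (n a t : ℕ) (z Y : Fin t → Fin n → ℂ), t ≤ a → a + t ≤ n → Orth z Y →
  ∃ v : Fin a → Fin n → ℂ, LinearIndependent ℂ v ∧
    (∀ i, z i ∈ Submodule.span ℂ (Set.range v)) ∧ Orth v Y

/-- DUA: dual vectors. -/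
def S_DUA : Prop := ∀ (n a : ℕ) (v : Fin a → Fin n → ℂ), LinearIndependent ℂ v →
  ∃ U : Fin a → Fin n → ℂ, ∀ i k, dt (v k) (U i) = if k = i then 1 else 0

/-- MACA: Gaussian elimination: elements of the span with distinct leading exponents. -/
def S_MACA : Prop := ∀ (a t : ℕ) (f : Fin t → Pn a), LinearIndependent ℂ f →
  ∃ g : Fin t → Pn a, (∀ j, g j ∈ Submodule.span ℂ (Set.range f)) ∧ (∀ j, g j ≠ 0) ∧
    Function.Injective (fun j => (MonomialOrder.lex : MonomialOrder (Fin a)).degree (g j))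

/-- MACB: counting. `e_i + μ_j = e_i' + μ_j'` determines `i` from `j ≠ j'`; the number of products
for `j` already seen for smaller `j'` is at most `j`. -/
def S_MACB : Prop := ∀ (a t : ℕ) (μ : Fin t → (Fin a →₀ ℕ)), Function.Injective μ →
  t * a ≤ (Finset.univ.image (fun x : Fin a × Fin t => Finsupp.single x.1 1 + μ x.2)).card +
    t * (t - 1) / 2

/-- MACC: polynomials with different leading exponents are linearly independent. -/
def S_MACC : Prop := ∀ (a : ℕ) (ι : Type) [Fintype ι] (h : ι → Pn a), (∀ i, h i ≠ 0) →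
  (Finset.univ.image (fun i => (MonomialOrder.lex : MonomialOrder (Fin a)).degree (h i))).card ≤
    Module.finrank ℂ (Submodule.span ℂ (Set.range h))

/-- MAC: from MACA, MACB, MACC (degree of `X i * g j` is `single i 1 + degree (g j)`). -/
def S_MAC : Prop := ∀ (a t : ℕ) (f : Fin t → Pn a), LinearIndependent ℂ f →
  t * a ≤ Module.finrank ℂ (Submodule.span ℂ (Set.range fun x : Fin a × Fin t => X x.1 * f x.2)) +
    t * (t - 1) / 2

/-- SB: `D = span v` from SUBD contains the `z i`, `Y j ⟂ D`. In coordinates `z = ∑ x_i v_i` put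
`f_j(x) = A(z, Y_j)` (linearly independent as `det ≠ 0`) and `q_l(x) = p_l(z)`. With `U_i` dual to
`v` (DUA) PAIR gives `x_i f_j(x) = ∑_l q_l(x) (dp (cj p) U_i Y_j)_l`, so `x_i f_j ∈ span q`. MAC,
PTS, HALF. -/
def S_SB : Prop := ∀ (n m : ℕ) (p : Fin m → Pn n) (A : Qn n), Sys n m p A →
  ∀ a t : ℕ, t ≤ a → 2 * a ≤ n → a + t ≤ n → Big A t → 2 * (t * a) ≤ m + t * (t - 1)

/-- SCH: Schur complement (`Matrix.det_fromBlocks₂₂` after reindexing). -/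
def S_SCH : Prop := ∀ (n s : ℕ) (A : Qn n) (z0 Y0 : Fin s → Fin n → ℂ) (z Y : Fin n → ℂ),
  (VM A z0 Y0).det ≠ 0 →
  (VM A (Fin.cons z z0 : Fin (s + 1) → Fin n → ℂ) (Fin.cons Y Y0 : Fin (s + 1) → Fin n → ℂ)).det
    = 0 → AA A z Y = RR A z0 Y0 z Y

/-- DUAL: take dual families `u`, `v` in `E = Y0^⟂`, `F = z0^⟂` with `r` maximal; then the rest
pairs to zero; `{z ∈ E | z ⟂ v}` has dimension at least `n - s - r` and is orthogonal to `F`,
and `F^⟂` has dimension at most `s`. -/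
def S_DUAL : Prop := ∀ (n s : ℕ) (z0 Y0 : Fin s → Fin n → ℂ), 2 * s ≤ n →
  ∃ (r : ℕ) (u v : Fin r → Fin n → ℂ), n ≤ r + 2 * s ∧ r ≤ n ∧ Orth u Y0 ∧ Orth z0 v ∧
    (∀ i j, dt (u i) (v j) = if i = j then 1 else 0) ∧
    ∀ z Y, (∀ j, dt z (Y0 j) = 0) → (∀ i, dt (z0 i) Y = 0) → (∀ j, dt z (v j) = 0) →
      (∀ i, dt (u i) Y = 0) → dt z Y = 0

/-- RKB: the coefficients of `x^α y^β` with `|α| = |β| = e` come from `SS^e * B(0)`: the matrix is
diagonal with nonzero entries (multinomials). Use `α = e_i + e_j + (e - 2) e_0`, `i ≤ j`: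
`r (r + 1) / 2` indices, and the matrix factors through `Fin M`. -/
def S_RKB : Prop := ∀ (r e M : ℕ) (f g : Fin M → Pn r) (B : Qn r), 2 ≤ e →
  constantCoeff B ≠ 0 →
  ∑ l, rename Sum.inl (f l) * rename Sum.inr (g l) = (SS r) ^ e * B → r * (r + 1) ≤ 2 * M

/-- RKA: divide `B` by `SS` as often as possible (degree), then NUL. -/
def S_RKA : Prop := ∀ (r : ℕ) (B : Qn r), 2 ≤ r → B ≠ 0 →
  ∃ (e : ℕ) (B' : Qn r) (x y : Fin r → ℂ), B = (SS r) ^ e * B' ∧ dt x y = 0 ∧ AA B' x y ≠ 0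

/-- RK2: RKA gives `SS^(e+2) B'` and `x0 ⟂ y0` with `B'(x0,y0) ≠ 0`; DUAL with `s = 1`,
`z0 = x0`, `Y0 = y0` gives dual families of length `r' ≥ r - 2`; substitute
`x = x0 + ∑ s_i u_i`, `y = y0 + ∑ t_j v_j` (then `x · y = ∑ s_i t_i`) and apply RKB. -/
def S_RK2 : Prop := ∀ (r M : ℕ) (f g : Fin M → Pn r) (B : Qn r), 2 ≤ r → B ≠ 0 →
  ∑ l, rename Sum.inl (f l) * rename Sum.inr (g l) = (SS r) ^ 2 * B →
  (r - 2) * (r - 1) ≤ 2 * M

/-- EF: suppose `A(z*,Y*) ≠ RR(z*,Y*)`. DUAL gives `u`, `v`, `r`; `za = z* - ∑ (z*·v_i) u_i`,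
`Ya = Y* - ∑ (u_i·Y*) v_i`; `z(x) = za + ∑ x_i u_i`, `Y(y) = Ya + ∑ y_i v_i`, so
`z(x)·Y(y) = ∑ x_i y_i`. `T(x,y) = A - RR` vanishes if `∑ x_i y_i = 0` (SCH, `¬ Big A (s+1)`);
NUL: `T = SS r * B`, `B ≠ 0`. `K(z(x),Y(y)) = SS * RR + SS^2 * B`, so `SS^2 * B` is a sum of
`m + r s` products; RK2. -/
def S_EF : Prop := ∀ (n m : ℕ) (p : Fin m → Pn n) (A : Qn n), Sys n m p A → ∀ s : ℕ,
  ¬ Big A (s + 1) → 2 * (m + n * s) < (n - 2 * s - 2) * (n - 2 * s - 1) →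
  ∀ z0 Y0 : Fin s → Fin n → ℂ, Orth z0 Y0 → (VM A z0 Y0).det ≠ 0 →
  ∀ z Y : Fin n → ℂ, (∀ j, dt z (Y0 j) = 0) → (∀ i, dt (z0 i) Y = 0) →
    AA A z Y = RR A z0 Y0 z Y

/-- RKR: the matrix factors through `Fin s`. -/
def S_RKR : Prop := ∀ (n s : ℕ) (A : Qn n) (z0 Y0 : Fin s → Fin n → ℂ)
  (z Y : Fin (s + 1) → Fin n → ℂ), (∀ i j, AA A (z i) (Y j) = RR A z0 Y0 (z i) (Y j)) →
  (VM A z Y).det = 0

/-- ADA: `H ⊆ Y^⟂` of dimension `n - s` containing the `z i`, `L1 ⊆ H` of dimension `s`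
containing the `z i`; basis adapted to `L1 ⊕ L3 = H`, `H ⊕ L2 = ℂ^n` (order: `L1` first, then `L2`,
then `L3`), scaled to determinant one; `c' = Zᵀ Y`. -/
def S_ADA : Prop := ∀ (n s : ℕ) (z Y : Fin s → Fin n → ℂ), 2 * s + 1 ≤ n → Orth z Y →
  ∃ (Z : Matrix (Fin n) (Fin n) ℂ) (c c' : Fin s → Fin n → ℂ), Z.det = 1 ∧
    (∀ i, z i = Z.mulVec (c i)) ∧ (∀ j, Y j = Z.adjugate.transpose.mulVec (c' j)) ∧
    (∀ i (k : Fin n), s ≤ k.val → c i k = 0) ∧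
    (∀ j (k : Fin n), (k.val < s ∨ 2 * s ≤ k.val) → c' j k = 0)

/-- ADB: `L ⊆ v^⟂` of dimension `2 s` with `L ∩ span u = 0`, complement `M` containing the
`u i`; basis adapted to `L ⊕ M`. -/
def S_ADB : Prop := ∀ (n s : ℕ) (u v : Fin (s + 1) → Fin n → ℂ), 4 * s + 2 ≤ n →
  ∃ (Z : Matrix (Fin n) (Fin n) ℂ) (c c' : Fin (s + 1) → Fin n → ℂ), Z.det = 1 ∧
    (∀ i, u i = Z.mulVec (c i)) ∧ (∀ j, v j = Z.adjugate.transpose.mulVec (c' j)) ∧
    (∀ i (k : Fin n), k.val < 2 * s → c i k = 0) ∧ (∀ j (k : Fin n), k.val < 2 * s → c' j k = 0)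

/-- GEN: parameters `Z`, `c0`, `c0'` (supports `[0,s)`, `[s,2s)`), `c`, `c'` (support `[2s,n)`).
The two determinants are polynomials in the parameters, both not zero (ADA, ADB), so there is a
common nonvanishing point; there all orthogonality relations hold (`(Z c)·(adj Zᵀ c') =
det Z (c·c')`, see `H96.FG.dot_zero`). -/
def S_GEN : Prop := ∀ (n s : ℕ) (A : Qn n), 4 * s + 2 ≤ n → Big A s →
  (∀ z0 Y0 : Fin s → Fin n → ℂ, Orth z0 Y0 → (VM A z0 Y0).det ≠ 0 →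
    ∀ z Y : Fin (s + 1) → Fin n → ℂ, Orth z Y0 → Orth z0 Y → (VM A z Y).det = 0) →
  ∀ z Y : Fin (s + 1) → Fin n → ℂ, (VM A z Y).det = 0

/-- HER: conjugate the identity of `Sys` and cancel. -/
def S_HER : Prop := ∀ (n m : ℕ) (p : Fin m → Pn n) (A : Qn n), Sys n m p A → 1 ≤ n →
  ∀ z Y, AA A (cv Y) (cv z) = (starRingEnd ℂ) (AA A z Y)

/-- HD: `A(z,Y) = ∑ A(z,Y_j) (M⁻¹)_{ji} A(z_i,Y)` (SCH), `g_j = A(·,Y_j)` linearly independent,
`A(z_i,·)` lies in the span of the `cj g_j` (HER); so `A = ∑ h_ij g_i ⊗ cj g_j` with `h` Hermitian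
and nonsingular; spectral theorem. -/
def S_HD : Prop := ∀ (n s : ℕ) (A : Qn n),
  (∀ z Y, AA A (cv Y) (cv z) = (starRingEnd ℂ) (AA A z Y)) →
  (∃ z Y : Fin s → Fin n → ℂ, (VM A z Y).det ≠ 0) →
  (∀ z Y : Fin (s + 1) → Fin n → ℂ, (VM A z Y).det = 0) →
  ∃ (f : Fin s → Pn n) (ε : Fin s → ℝ), LinearIndependent ℂ f ∧ (∀ i, ε i ≠ 0) ∧
    A = ∑ i, C ((ε i : ℝ) : ℂ) * (rename Sum.inl (f i) * rename Sum.inr (cj (f i)))

/-- FUN: apply a functional and its conjugate to both groups of variables (coefficients). -/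
def S_FUN : Prop := ∀ (n : ℕ) (ι κ : Type) [Fintype ι] [Fintype κ] (u : ι → Pn n) (δ : ι → ℝ)
  (p : κ → Pn n),
  ∑ a, C ((δ a : ℝ) : ℂ) * (rename Sum.inl (u a) * rename Sum.inr (cj (u a))) =
    ∑ l, rename Sum.inl (p l) * rename Sum.inr (cj (p l)) →
  ∀ ξ : Pn n →ₗ[ℂ] ℂ, ∑ a, δ a * ‖ξ (u a)‖ ^ 2 = ∑ l, ‖ξ (p l)‖ ^ 2

/-- PSD: HD, FUN with `u (k,i) = X k * f i`, `δ = ε i`. If some `ε i < 0`: every functional
vanishing on the `X k * f i` with `ε i > 0` vanishes on all `X k * f i`, so these span a space of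
dimension at most `n (s - 1)`, contradiction to MAC. So all `ε i > 0`; then functionals vanish on
`p` iff on all `X k * f i`, so both span the same space, `m` is its dimension; MAC. -/
def S_PSD : Prop := ∀ (n m : ℕ) (p : Fin m → Pn n) (A : Qn n), Sys n m p A → 1 ≤ n → ∀ s : ℕ,
  (∃ z Y : Fin s → Fin n → ℂ, (VM A z Y).det ≠ 0) →
  (∀ z Y : Fin (s + 1) → Fin n → ℂ, (VM A z Y).det = 0) → s * (s - 1) / 2 < n →
  s * n ≤ m + s * (s - 1) / 2 ∧ m ≤ s * n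

/-- TOP: assembly. -/
def S_TOP : Prop := ∀ k n m : ℕ, (k + 4) ^ 2 ≤ n → m ∈ SosRanks 1 n → m < (k + 1) * n →
  ∃ s, s ≤ k + 1 ∧ s * n ≤ m + s * (s - 1) / 2 ∧ m ≤ s * n

end H95.FI
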